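import Mathlib

/-!
# H19MW: the descent part of the Mordell-Weil theorem over a number field

`addSub_eq`: the map addSubMap of Mathlib does what it claims (characteristic not 2). `parallelogram`: approximate parallelogram
law for the naive height. `mw_fg`: for an elliptic curve over a number field, if E(F)/2E(F) is finite then E(F) is finitely generated.
`mw_fg_of_finset`: the same with a finite set of representatives. `mw_torsion`: the torsion subgroup is finite.
-/

set_option autoImplicit false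

open WeierstrassCurve WeierstrassCurve.Affine Height

namespace H19MW

section alg

variable {F : Type*} [Field F]

theorem mw_sum {u1 u2 x1 x2 b2 b4 b6 xp xm : F} (h2 : (2 : F) ≠ 0)
    (hu1 : u1 ^ 2 = 4 * x1 ^ 3 + b2 * x1 ^ 2 + 2 * b4 * x1 + b6) (hu2 : u2 ^ 2 = 4 * x2 ^ 3 + b2 * x2 ^ 2 + 2 * b4 * x2 + b6)
    (hp : 4 * xp * (x1 - x2) ^ 2 = (u1 - u2) ^ 2 - (b2 + 4 * (x1 + x2)) * (x1 - x2) ^ 2)
    (hm : 4 * xm * (x1 - x2) ^ 2 = (u1 + u2) ^ 2 - (b2 + 4 * (x1 + x2)) * (x1 - x2) ^ 2) :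
    (x1 - x2) ^ 2 * (xp + xm) = 2 * (x1 + x2) * (x1 * x2) + b2 * (x1 * x2) + b4 * (x1 + x2) + b6 := by
  have h4 : (4 : F) ≠ 0 := by
    have e : (4 : F) = 2 * 2 := by norm_num
    rw [e]
    exact mul_ne_zero h2 h2
  apply mul_left_cancel₀ h4
  linear_combination hp + hm + 2 * hu1 + 2 * hu2

theorem mw_prod {u1 u2 x1 x2 b2 b4 b6 b8 xp xm : F} (h2 : (2 : F) ≠ 0) (hx : x1 - x2 ≠ 0) (hb : 4 * b8 = b2 * b6 - b4 ^ 2)
    (hu1 : u1 ^ 2 = 4 * x1 ^ 3 + b2 * x1 ^ 2 + 2 * b4 * x1 + b6) (hu2 : u2 ^ 2 = 4 * x2 ^ 3 + b2 * x2 ^ 2 + 2 * b4 * x2 + b6)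
    (hp : 4 * xp * (x1 - x2) ^ 2 = (u1 - u2) ^ 2 - (b2 + 4 * (x1 + x2)) * (x1 - x2) ^ 2)
    (hm : 4 * xm * (x1 - x2) ^ 2 = (u1 + u2) ^ 2 - (b2 + 4 * (x1 + x2)) * (x1 - x2) ^ 2) :
    (x1 - x2) ^ 2 * (xp * xm) = (x1 * x2) ^ 2 - b4 * (x1 * x2) - b6 * (x1 + x2) - b8 := by
  have h4 : (4 : F) ≠ 0 := by
    have e : (4 : F) = 2 * 2 := by norm_num
    rw [e]
    exact mul_ne_zero h2 h2
  have h16 : (4 * 4 * (x1 - x2) ^ 2 : F) ≠ 0 := mul_ne_zero (mul_ne_zero h4 h4) (pow_ne_zero 2 hx)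
  apply mul_left_cancel₀ h16
  have e1 : (4 * xp * (x1 - x2) ^ 2) * (4 * xm * (x1 - x2) ^ 2) =
      (u1 ^ 2 - u2 ^ 2) ^ 2 - 2 * (b2 + 4 * (x1 + x2)) * (x1 - x2) ^ 2 * (u1 ^ 2 + u2 ^ 2) + (b2 + 4 * (x1 + x2)) ^ 2 * (x1 - x2) ^ 4 := by
    rw [hp, hm]
    ring
  rw [hu1, hu2] at e1
  linear_combination e1 + 4 * (x1 - x2) ^ 2 * hb

theorem mw_dbl {u x b2 b4 b6 b8 xd : F} (h2 : (2 : F) ≠ 0) (hb : 4 * b8 = b2 * b6 - b4 ^ 2)
    (hu : u ^ 2 = 4 * x ^ 3 + b2 * x ^ 2 + 2 * b4 * x + b6)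
    (hd : 4 * xd * u ^ 2 = (6 * x ^ 2 + b2 * x + b4) ^ 2 - (b2 + 8 * x) * u ^ 2) :
    u ^ 2 * xd = x ^ 4 - b4 * x ^ 2 - 2 * b6 * x - b8 := by
  have h4 : (4 : F) ≠ 0 := by
    have e : (4 : F) = 2 * 2 := by norm_num
    rw [e]
    exact mul_ne_zero h2 h2
  apply mul_left_cancel₀ h4
  linear_combination hd - (b2 + 8 * x) * hu + hb

variable (W : WeierstrassCurve F)

theorem mw_psi {x y : F} (h : W.toAffine.Equation x y) :
    (2 * y + W.a₁ * x + W.a₃) ^ 2 = 4 * x ^ 3 + W.b₂ * x ^ 2 + 2 * W.b₄ * x + W.b₆ := by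
  rw [Affine.equation_iff] at h
  rw [b₂, b₄, b₆]
  linear_combination 4 * h

theorem mw_addX {x1 x2 y1 y2 : F} (hx : x1 - x2 ≠ 0) :
    4 * (W.toAffine.addX x1 x2 ((y1 - y2) / (x1 - x2))) * (x1 - x2) ^ 2 =
      ((2 * y1 + W.a₁ * x1 + W.a₃) - (2 * y2 + W.a₁ * x2 + W.a₃)) ^ 2 - (W.b₂ + 4 * (x1 + x2)) * (x1 - x2) ^ 2 := by
  rw [addX, b₂]
  field_simp
  ring

theorem mw_eval (s t u : F) : (fun i => (addSubMap W i).eval ![s, t, u]) =
    ![s ^ 2 - W.b₄ * s * u - W.b₆ * t * u - W.b₈ * u ^ 2, 2 * t * s + W.b₂ * s * u + W.b₄ * t * u + W.b₆ * u ^ 2, t ^ 2 - 4 * s * u] := by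
  ext i
  fin_cases i <;> simp [addSubMap]

end alg

section pts

variable {F : Type*} [Field F] [DecidableEq F] (W : WeierstrassCurve F)

/-- Q = P, not of order 2 (or not zero). -/
theorem addSub_same [W.IsElliptic] (h2 : (2 : F) ≠ 0) (P : W.toAffine.Point) :
    ∃ t : F, t ≠ 0 ∧ (fun i => (addSubMap W i).eval (P.sym2x P)) = t • (P + P).sym2x (P - P) := by
  rw [sub_self]
  rcases P with _ | ⟨x, y, h⟩
  · refine ⟨1, one_ne_zero, ?_⟩
    rw [one_smul]
    have e : (Affine.Point.zero : W.toAffine.Point) = 0 := rfl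
    rw [e, add_zero, Affine.Point.sym2x_zero_zero, mw_eval]
    simp
  · have hy : y - W.toAffine.negY x y = 2 * y + W.a₁ * x + W.a₃ := by
      rw [Affine.negY]
      ring
    have hpsi := mw_psi W h.1
    by_cases hu : y = W.toAffine.negY x y
    · have h0 : 2 * y + W.a₁ * x + W.a₃ = 0 := by
        rw [← hy, sub_eq_zero]
        exact hu
      have hne := addSubMap_ne_zero W (Affine.Point.sym2x_ne_zero (Affine.Point.some x y h) (Affine.Point.some x y h))
      rw [Affine.Point.add_self_of_Y_eq hu, Affine.Point.sym2x_zero_zero]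
      rw [Affine.Point.sym2x_some_some, mw_eval] at hne ⊢
      have e1 : 2 * (x + x) * (x * x) + W.b₂ * (x * x) * 1 + W.b₄ * (x + x) * 1 + W.b₆ * 1 ^ 2 = 0 := by
        rw [h0] at hpsi
        linear_combination -hpsi
      have e2 : (x + x) ^ 2 - 4 * (x * x) * 1 = 0 := by ring
      rw [e1, e2] at hne ⊢
      refine ⟨(x * x) ^ 2 - W.b₄ * (x * x) * 1 - W.b₆ * (x + x) * 1 - W.b₈ * 1 ^ 2, ?_, ?_⟩
      · intro h3
        apply hne
        rw [h3]
        ext i
        fin_cases i <;> simp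
      · ext i
        fin_cases i <;> simp
    · have hu0 : 2 * y + W.a₁ * x + W.a₃ ≠ 0 := by
        rw [← hy]
        exact sub_ne_zero.2 hu
      refine ⟨(2 * y + W.a₁ * x + W.a₃) ^ 2, pow_ne_zero 2 hu0, ?_⟩
      rw [Affine.Point.add_self_of_Y_ne hu, Affine.Point.sym2x_some_zero, Affine.Point.sym2x_some_some, mw_eval]
      have hd : 4 * (W.toAffine.addX x x (W.toAffine.slope x x y y)) * (2 * y + W.a₁ * x + W.a₃) ^ 2 =
          (6 * x ^ 2 + W.b₂ * x + W.b₄) ^ 2 - (W.b₂ + 8 * x) * (2 * y + W.a₁ * x + W.a₃) ^ 2 := by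
        have hn : W.toAffine.slope x x y y * (2 * y + W.a₁ * x + W.a₃) = 3 * x ^ 2 + 2 * W.a₂ * x + W.a₄ - W.a₁ * y := by
          rw [Affine.slope_of_Y_ne rfl hu, hy]
          exact div_mul_cancel₀ _ hu0
        rw [addX, b₂, b₄]
        linear_combination (4 * (W.toAffine.slope x x y y * (2 * y + W.a₁ * x + W.a₃) + (3 * x ^ 2 + 2 * W.a₂ * x + W.a₄ - W.a₁ * y)) +
          4 * W.a₁ * (2 * y + W.a₁ * x + W.a₃)) * hn
      have hx := mw_dbl h2 W.b_relation hpsi hd
      ext i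
      fin_cases i
      · simp only [Fin.zero_eta, Fin.isValue, Matrix.cons_val_zero, Pi.smul_apply, smul_eq_mul]
        rw [hx]
        ring
      · simp only [Fin.mk_one, Fin.isValue, Matrix.cons_val_one, Matrix.cons_val_zero, Pi.smul_apply, smul_eq_mul]
        rw [hpsi]
        ring
      · simp
        ring

theorem addSub_eq [W.IsElliptic] (h2 : (2 : F) ≠ 0) (P Q : W.toAffine.Point) :
    ∃ t : F, t ≠ 0 ∧ (fun i => (addSubMap W i).eval (P.sym2x Q)) = t • (P + Q).sym2x (P - Q) := by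
  by_cases hPQ : P = Q
  · subst hPQ
    exact addSub_same W h2 P
  by_cases hPQ' : P = -Q
  · obtain ⟨t, ht, h⟩ := addSub_same W h2 P
    refine ⟨t, ht, ?_⟩
    have e1 : P.sym2x Q = P.sym2x P := by
      rw [hPQ', Affine.Point.sym2x_neg_left, Affine.Point.sym2x_neg_right, Affine.Point.sym2x_neg_left]
    have e2 : Q = -P := by rw [hPQ', neg_neg]
    rw [e1, h, Affine.Point.sym2x_comm, e2, ← sub_eq_add_neg, sub_neg_eq_add]
  rcases P with _ | ⟨x1, y1, h1⟩
  · have e : (Affine.Point.zero : W.toAffine.Point) = 0 := rfl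
    rw [e] at hPQ hPQ' ⊢
    rcases Q with _ | ⟨x, y, h⟩
    · exact absurd rfl hPQ
    · refine ⟨1, one_ne_zero, ?_⟩
      rw [one_smul, zero_add, zero_sub, Affine.Point.sym2x_neg_right, Affine.Point.sym2x_zero_some, Affine.Point.sym2x_some_some, mw_eval]
      ext i
      fin_cases i <;> simp <;> ring
  · rcases Q with _ | ⟨x2, y2, h2'⟩
    · have e : (Affine.Point.zero : W.toAffine.Point) = 0 := rfl
      rw [e]
      refine ⟨1, one_ne_zero, ?_⟩
      rw [one_smul, add_zero, sub_zero, Affine.Point.sym2x_some_zero, Affine.Point.sym2x_some_some, mw_eval]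
      ext i
      fin_cases i <;> simp <;> ring
    · have hx : x1 ≠ x2 := by
        intro hx
        rcases (Affine.Point.X_eq_iff (h₁ := h1) (h₂ := h2')).1 hx with h | h
        · exact hPQ h
        · exact hPQ' h
      have hx0 : x1 - x2 ≠ 0 := sub_ne_zero.2 hx
      have hp1 := mw_psi W h1.1
      have hp2 := mw_psi W h2'.1
      refine ⟨(x1 - x2) ^ 2, pow_ne_zero 2 hx0, ?_⟩
      rw [sub_eq_add_neg (Affine.Point.some x1 y1 h1), Affine.Point.neg_some, Affine.Point.add_of_X_ne hx, Affine.Point.add_of_X_ne hx, Affine.Point.sym2x_some_some,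
        Affine.Point.sym2x_some_some, mw_eval, Affine.slope_of_X_ne hx, Affine.slope_of_X_ne hx]
      have hpl := mw_addX W (y1 := y1) (y2 := y2) hx0
      have hmi := mw_addX W (y1 := y1) (y2 := W.toAffine.negY x2 y2) hx0
      have e3 : (2 * y1 + W.a₁ * x1 + W.a₃) - (2 * W.toAffine.negY x2 y2 + W.a₁ * x2 + W.a₃) =
          (2 * y1 + W.a₁ * x1 + W.a₃) + (2 * y2 + W.a₁ * x2 + W.a₃) := by
        rw [Affine.negY]
        ring
      rw [e3] at hmi
      have hs := mw_sum h2 hp1 hp2 hpl hmi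
      have hpr := mw_prod h2 hx0 W.b_relation hp1 hp2 hpl hmi
      ext i
      fin_cases i
      · simp only [Fin.zero_eta, Fin.isValue, Matrix.cons_val_zero, Pi.smul_apply, smul_eq_mul]
        rw [hpr]
        ring
      · simp only [Fin.mk_one, Fin.isValue, Matrix.cons_val_one, Matrix.cons_val_zero, Pi.smul_apply, smul_eq_mul]
        rw [hs]
        ring
      · simp
        ring

end pts

section heights

variable {F : Type*} [Field F] [DecidableEq F] (W : WeierstrassCurve F)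

/-- The naive height. -/
noncomputable def ht [AdmissibleAbsValues F] (P : W.toAffine.Point) : ℝ := logHeight P.xRep

theorem parallelogram [AdmissibleAbsValues F] [W.IsElliptic] (h2 : (2 : F) ≠ 0) :
    ∃ C : ℝ, ∀ P Q : W.toAffine.Point, |ht W (P + Q) + ht W (P - Q) - 2 * (ht W P + ht W Q)| ≤ C := by
  obtain ⟨C1, h1⟩ := abs_logHeight_sym2_sub_le F
  obtain ⟨C2, h2'⟩ := abs_logHeight_addSubMap_sub_two_mul_logHeight_le W
  have hsym : ∀ P Q : W.toAffine.Point, |logHeight (P.sym2x Q) - (ht W P + ht W Q)| ≤ C1 := by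
    intro P Q
    have e1 : P.xRep = ![P.xRep 0, P.xRep 1] := by
      ext i
      fin_cases i <;> rfl
    have e2 : Q.xRep = ![Q.xRep 0, Q.xRep 1] := by
      ext i
      fin_cases i <;> rfl
    have n1 := P.xRep_ne_zero
    have n2 := Q.xRep_ne_zero
    rw [e1] at n1
    rw [e2] at n2
    have h := h1 n1 n2
    rw [← e1, ← e2] at h
    exact h
  refine ⟨3 * C1 + C2, fun P Q => ?_⟩
  obtain ⟨t, ht0, hte⟩ := addSub_eq W h2 P Q
  have a1 := h2' (P.sym2x Q)
  rw [hte, logHeight_smul_eq_logHeight _ ht0] at a1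
  have a2 := hsym P Q
  have a3 := hsym (P + Q) (P - Q)
  rw [abs_le] at a1 a2 a3 ⊢
  constructor <;> linarith [a1.1, a1.2, a2.1, a2.2, a3.1, a3.2]

theorem ht_nonneg [AdmissibleAbsValues F] (P : W.toAffine.Point) : 0 ≤ ht W P := by
  rcases P with _ | ⟨x, y, h⟩
  · have e : ht W (Affine.Point.zero : W.toAffine.Point) = logHeight ![(1 : F), 0] := rfl
    rw [e]
    positivity
  · have e : ht W (Affine.Point.some x y h) = logHeight ![x, 1] := rfl
    rw [e, ← logHeight₁_eq_logHeight]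
    exact zero_le_logHeight₁ x

theorem ht_northcott [NumberField F] : Northcott (ht W) := by
  constructor
  intro B
  refine Set.Finite.of_finite_fibers (fun P : W.toAffine.Point => P.xRep) ?_ ?_
  · have hfin : ({![(1 : F), 0]} ∪ (fun x : F => ![x, 1]) '' {x : F | logHeight₁ x ≤ B}).Finite :=
      (Set.finite_singleton _).union ((NumberField.finite_setOfPred_logHeight₁_le F B).image _)
    refine hfin.subset ?_
    rintro _ ⟨P, hP, rfl⟩
    rcases P with _ | ⟨x, y, h⟩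
    · exact Or.inl rfl
    · refine Or.inr ⟨x, ?_, rfl⟩
      have e : ht W (Affine.Point.some x y h) = logHeight ![x, 1] := rfl
      have hP' : ht W (Affine.Point.some x y h) ≤ B := hP
      rw [e, ← logHeight₁_eq_logHeight] at hP'
      exact hP'
  · rintro _ ⟨P, hP, rfl⟩
    refine (Set.toFinite {P, -P}).subset ?_
    rintro Q ⟨_, hQ⟩
    rcases Affine.Point.eq_or_eq_neg_of_xRep_eq_xRep (P := Q) (Q := P) hQ with h | h
    · exact Or.inl h
    · exact Or.inr h

variable [NumberField F] [W.IsElliptic]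

/-- Descent: a finite group E(F)/2E(F) implies that E(F) is finitely generated. -/
theorem mw_fg (h : (nsmulAddMonoidHom (α := W.toAffine.Point) 2).range.FiniteIndex) : AddGroup.FG W.toAffine.Point := by
  obtain ⟨C, hC⟩ := parallelogram W (F := F) two_ne_zero
  haveI := ht_northcott W
  exact AddCommGroup.fg_of_descent' h (ht_nonneg W) hC

/-- The same with a finite set of representatives modulo 2. -/
theorem mw_fg_of_finset (T : Set W.toAffine.Point) (hT : T.Finite) (h : ∀ P : W.toAffine.Point, ∃ Q ∈ T, ∃ R, P = Q + 2 • R) :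
    AddGroup.FG W.toAffine.Point := by
  apply mw_fg
  haveI : Finite T := hT
  have hf : Finite (W.toAffine.Point ⧸ (nsmulAddMonoidHom (α := W.toAffine.Point) 2).range) := by
    refine Finite.of_surjective (fun Q : T => ((Q : W.toAffine.Point) : W.toAffine.Point ⧸ (nsmulAddMonoidHom (α := W.toAffine.Point) 2).range)) ?_
    intro q
    obtain ⟨P, rfl⟩ := QuotientAddGroup.mk_surjective q
    obtain ⟨Q, hQ, R, hR⟩ := h P
    refine ⟨⟨Q, hQ⟩, ?_⟩
    rw [QuotientAddGroup.eq]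
    exact ⟨R, by
      change 2 • R = -Q + P
      rw [hR, neg_add_cancel_left]⟩
  exact AddSubgroup.finiteIndex_of_finite_quotient

/-- The torsion subgroup is finite. -/
theorem mw_torsion : Finite (AddCommGroup.torsion W.toAffine.Point) := by
  obtain ⟨C, hC⟩ := parallelogram W (F := F) two_ne_zero
  haveI := ht_northcott W
  exact AddCommGroup.finite_torsion_of_descent' hC

end heights

end H19MW
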