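import Mathlib
import Pool.Agent.Lib.H19MW.MW
import Pool.Agent.Lib.H60.UDef.Defs

/-!
# H19MW: the curves y^2 = x^3 + a x + b

`mw_short`: if E(F)/2E(F) has a finite set of representatives then E(F) is finitely generated, E = shortW a b over a number field F.
-/

set_option autoImplicit false

open WeierstrassCurve WeierstrassCurve.Affine Pool.Agent.H60.UDef

namespace H19MW

theorem short_elliptic {F : Type} [Field F] [CharZero F] (a b : F) (h : 4 * a ^ 3 + 27 * b ^ 2 ≠ 0) : (shortW a b).IsElliptic := by
  rw [isElliptic_iff]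
  apply Ne.isUnit
  intro h0
  apply h
  have h1 : (shortW a b).Δ = -16 * (4 * a ^ 3 + 27 * b ^ 2) := by
    simp only [WeierstrassCurve.Δ, WeierstrassCurve.b₂, WeierstrassCurve.b₄, WeierstrassCurve.b₆, WeierstrassCurve.b₈, shortW]
    ring
  rw [h1] at h0
  rcases mul_eq_zero.1 h0 with h2 | h2
  · exfalso
    norm_num at h2
  · exact h2

theorem short_bc {F K : Type} [Field F] [CharZero F] [Field K] [Algebra F K] (a b : F) (h : 4 * a ^ 3 + 27 * b ^ 2 ≠ 0) :
    (WeierstrassCurve.baseChange (shortW a b) K).IsElliptic := by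
  have h1 : (shortW a b).IsElliptic := short_elliptic a b h
  have h2 : ((shortW a b).map (algebraMap F K)).IsElliptic := inferInstance
  exact h2

open scoped Classical in
theorem mw_short {F : Type} [Field F] [NumberField F] (a b : F) (h : 4 * a ^ 3 + 27 * b ^ 2 ≠ 0)
    (T : Set ((shortW a b)⁄F).Point) (hT : T.Finite) (hrep : ∀ P : ((shortW a b)⁄F).Point, ∃ Q ∈ T, ∃ R, P = Q + 2 • R) :
    AddGroup.FG ((shortW a b)⁄F).Point := by
  haveI := short_bc (K := F) a b h
  exact mw_fg_of_finset (WeierstrassCurve.baseChange (shortW a b) F) T hT hrep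

open scoped Classical in
/-- The same for the extension K of F. -/
theorem mw_short_ext {F K : Type} [Field F] [CharZero F] [Field K] [NumberField K] [Algebra F K] (a b : F) (h : 4 * a ^ 3 + 27 * b ^ 2 ≠ 0)
    (T : Set ((shortW a b)⁄K).Point) (hT : T.Finite) (hrep : ∀ P : ((shortW a b)⁄K).Point, ∃ Q ∈ T, ∃ R, P = Q + 2 • R) :
    AddGroup.FG ((shortW a b)⁄K).Point := by
  haveI := short_bc (K := K) a b h
  exact mw_fg_of_finset (WeierstrassCurve.baseChange (shortW a b) K) T hT hrep

open scoped Classical in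
theorem mw_short_torsion {F K : Type} [Field F] [CharZero F] [Field K] [NumberField K] [Algebra F K] (a b : F) (h : 4 * a ^ 3 + 27 * b ^ 2 ≠ 0) :
    Finite (AddCommGroup.torsion ((shortW a b)⁄K).Point) := by
  haveI := short_bc (K := K) a b h
  exact mw_torsion (WeierstrassCurve.baseChange (shortW a b) K)

end H19MW
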