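import Mathlib
import Pool.Agent.Lib.H19MW.Short
import Pool.Agent.Lib.H60R.Defs

/-!
# H19MW: weak form of the Mordell-Weil theorem for y^2 = x^3 + k x, and descent with any n >= 2

`mweil` is (by unfolding) the statement MWeil of Lib/H60R/In.lean. `mw_fg_n`: E(F)/nE(F) finite, n >= 2, implies that E(F) is finitely generated.
-/

set_option autoImplicit false

open WeierstrassCurve WeierstrassCurve.Affine Height Pool.Agent.H60.UDef Pool.Agent.H60R

namespace H19MW

open Classical in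
theorem mweil (F : Type) [Field F] [NumberField F] :
    ∀ k : F, k ≠ 0 → (∃ T : Set (Ek k), T.Finite ∧ ∀ P : Ek k, ∃ t ∈ T, ∃ R : Ek k, P = t + (R + R)) → AddGroup.FG (Ek k) := by
  rintro k hk ⟨T, hT, h⟩
  refine mw_short k 0 ?_ T hT fun P => ?_
  · have h1 : 4 * k ^ 3 ≠ 0 := mul_ne_zero (by norm_num) (pow_ne_zero 3 hk)
    simpa using h1
  · obtain ⟨t, ht, R, hR⟩ := h P
    exact ⟨t, ht, R, by rw [hR, two_nsmul]⟩

section

variable {F : Type*} [Field F] [DecidableEq F] (W : WeierstrassCurve F)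

/-- The height of n P is n^2 times the height of P, up to a constant. -/
theorem mw_nsmul [AdmissibleAbsValues F] [W.IsElliptic] (h2 : (2 : F) ≠ 0) (n : ℕ) :
    ∃ C : ℝ, ∀ P : W.toAffine.Point, |ht W (n • P) - (n : ℝ) ^ 2 * ht W P| ≤ C := by
  obtain ⟨C, hC⟩ := parallelogram W h2
  induction n using Nat.twoStepInduction with
  | zero =>
    refine ⟨|ht W 0|, fun P => ?_⟩
    rw [zero_nsmul, Nat.cast_zero]
    simp
  | one =>
    refine ⟨0, fun P => ?_⟩
    rw [one_nsmul, Nat.cast_one]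
    simp
  | more n ih0 ih1 =>
    obtain ⟨C0, h0⟩ := ih0
    obtain ⟨C1, h1⟩ := ih1
    refine ⟨C + C0 + 2 * C1, fun P => ?_⟩
    have a0 := h0 P
    have a1 := h1 P
    have a2 := hC ((n + 1) • P) P
    have e1 : (n + 1) • P + P = (n + 2) • P := by rw [succ_nsmul P (n + 1)]
    have e2 : (n + 1) • P - P = n • P := by rw [succ_nsmul, add_sub_cancel_right]
    rw [e1, e2] at a2
    push_cast at a0 a1 ⊢
    rw [abs_le] at a0 a1 a2 ⊢
    constructor <;> nlinarith [a0.1, a0.2, a1.1, a1.2, a2.1, a2.2]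

/-- Descent with n. -/
theorem mw_fg_n [NumberField F] [W.IsElliptic] (n : ℕ) (hn : 2 ≤ n) (hfin : (nsmulAddMonoidHom (α := W.toAffine.Point) n).range.FiniteIndex) :
    AddGroup.FG W.toAffine.Point := by
  obtain ⟨C, hC⟩ := parallelogram W (F := F) two_ne_zero
  obtain ⟨C1, hC1⟩ := mw_nsmul W (F := F) two_ne_zero n
  haveI := ht_northcott W
  have hn' : (2 : ℝ) ≤ n := by exact_mod_cast hn
  refine AddCommGroup.fg_of_descent (n := n) (h := ht W) (a := 2) (b := (n : ℝ) ^ 2) (c₀ := C1) (c := fun g => 2 * ht W (-g) + C) (by norm_num) (by nlinarith) hfin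
    (fun g x => ?_) fun x => ?_
  · have a1 := hC (g + x) (-g)
    have e1 : g + x + -g = x := by abel
    rw [e1, abs_le] at a1
    linarith [a1.1, a1.2, ht_nonneg W (g + x - -g)]
  · have a1 := hC1 x
    rw [abs_le] at a1
    linarith [a1.1]

end

end H19MW
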